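import Pool.Agent.H20.P3G.Geo3
import Pool.Agent.H60.P3.Abs
import Pool.Agent.H39.KN.StrD
import Pool.Agent.H54.RV.Main

/-!
# [H20 P3G Fin] PICARD NUMBER THREE (MP_e49dc9_ag): the final statement

`p3_fin`: `Y` smooth projective threefold over `ℂ`, `K = 0`, `c₂ ≠ 0`, `q = 0`, Picard number three, the automorphisms act on `N^1` through an infinite group: they have a rational
polyhedral fundamental domain on the hull of the rational nef classes; they have one on the effective nef cone if and only if one nonzero nef divisor `D` with `c₂ D = 0` is effective (there are such nef divisors).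
-/

set_option autoImplicit false

namespace Pool.Agent.H20.P3G

open AlgebraicGeometry Pool.Agent.H54.RV Pool.Agent.H83.TU Pool.Agent.H20.TD Pool.Agent.H57.KM Pool.Agent.H20.FV
  Pool.Agent.H39.TZ Pool.Agent.H20.RT Pool.Agent.H60.P3 Pool.Agent.H39.KN
open Pool.Agent.H20.TP (cR)

section gen

variable {k K : Type} [Field k] [Field K] [Algebra k K] {X : Mod k K} {r : ℕ}
  {ν : Cart X →* Multiplicative (Fin r → ℤ)} {b : LatB X r}

theorem qr_int {n : ℕ} (q : Fin n → ℚ) : ∃ (m : ℕ) (s : Fin n → ℤ), 1 ≤ m ∧ (m : ℝ) • (qR q : V n) = toR s := by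
  obtain ⟨m, hm⟩ : ∃ m : ℕ, m = ∏ i, (q i).den := ⟨_, rfl⟩
  have hm0 : 0 < m := by
    rw [hm]
    exact Finset.prod_pos fun i _ => (q i).den_pos
  have h1 : ∀ i, ∃ z : ℤ, (z : ℚ) = (m : ℚ) * q i := by
    intro i
    obtain ⟨e, he⟩ : (q i).den ∣ m := by
      rw [hm]
      exact Finset.dvd_prod_of_mem _ (Finset.mem_univ i)
    refine ⟨e * (q i).num, ?_⟩
    have h2 : ((q i).den : ℚ) * q i = (q i).num := Rat.den_mul_eq_num (q i)
    rw [he]
    push_cast
    rw [mul_assoc, mul_left_comm, h2]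
  choose z hz using h1
  refine ⟨m, z, hm0, ?_⟩
  funext i
  show (m : ℝ) * ((q i : ℚ) : ℝ) = ((z i : ℤ) : ℝ)
  have h3 := congrArg (fun x : ℚ => (x : ℝ)) (hz i)
  push_cast at h3
  exact h3.symm

theorem eff_iff [IsAlgClosed k] [CharZero k] (hX : IsVar X) [FiniteDimensional ℝ (N1 X)]
    (hb : ∀ D, cl D = pt b (rv (ci ν D))) (v : Fin r → ℝ) : pt b v ∈ EffC X ↔ Pool.Agent.H39.TZ.EffR ν v := by
  constructor
  · rintro ⟨m, c, D, hc, hD, h1⟩
    refine ⟨m, c, D, fun i => ⟨hc i, hD i⟩, (pt_bij hX b).1 ?_⟩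
    rw [h1, Pool.Agent.H83.DC.pt_sum]
    exact Finset.sum_congr rfl fun i _ => by rw [Pool.Agent.H54.RV.pt_smul, hb]
  · rintro ⟨m, a, E, h1, h2⟩
    refine ⟨m, a, E, fun i => (h1 i).1, fun i => (h1 i).2, ?_⟩
    rw [h2, Pool.Agent.H83.DC.pt_sum]
    exact Finset.sum_congr rfl fun i _ => by rw [Pool.Agent.H54.RV.pt_smul, hb]

theorem hull_np [IsAlgClosed k] [CharZero k] (hX : IsVar X) [FiniteDimensional ℝ (N1 X)] (hν : NumR ν)
    (hb : ∀ D, cl D = pt b (rv (ci ν D))) {v : Fin r → ℝ} (hv : v ∈ Hull (ampR b)) : pt b v ∈ NefP X := by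
  have h1 : Convex ℝ {v : V r | pt b v ∈ NefP X} := by
    intro x hx y hy s t hs ht hst
    show pt b (s • x + t • y) ∈ NefP X
    rw [Pool.Agent.H54.RV.pt_add, Pool.Agent.H54.RV.pt_smul, Pool.Agent.H54.RV.pt_smul]
    exact convex_convexHull ℝ _ hx hy hs ht hst
  refine convexHull_min ?_ h1 hv
  rintro x ⟨hx, q, rfl⟩
  refine subset_convexHull ℝ _ ⟨(cl_ampR hX b _).1 hx, ?_⟩
  obtain ⟨m, s, hm, hs⟩ := qr_int q
  obtain ⟨D, hD⟩ := ci_surj hν s
  refine ⟨m, D, hm, ?_⟩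
  rw [← Pool.Agent.H54.RV.pt_smul, hs, hb, hD]
  rfl

theorem grp_inf [IsAlgClosed k] [CharZero k] (hX : IsVar X) [FiniteDimensional ℝ (N1 X)] (Γ : Subgroup (MAut X))
    (hG : (ActS Γ).Infinite) : (grpR Γ b : Set (GL (Fin r) ℤ)).Infinite := by
  intro hfin
  apply hG
  have hinv : ∀ v : N1 X, pt b (Function.surjInv (pt_bij hX b).2 v) = v := Function.surjInv_eq _
  refine (hfin.image fun A : GL (Fin r) ℤ => fun v : N1 X => pt b (act A (Function.surjInv (pt_bij hX b).2 v))).subset ?_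
  rintro _ ⟨g, hg, rfl⟩
  obtain ⟨A, hA⟩ := act_gl hX b g
  refine ⟨A, ⟨g, hg, hA⟩, funext fun v => ?_⟩
  show pt b (act A _) = _
  rw [← hA, hinv]

end gen

/-- **the cone conjecture for Picard number three and infinite automorphism group** -/
theorem p3_fin {Y : Scheme.{0}} [IsIntegral Y] (f : Y ⟶ Spec (.of ℂ)) [IsProper f] [Smooth f]
    (hd : Algebra.trdeg ℂ (FF f) = 3) (hA : ∃ D : Cart (mdl f), Ample D)
    (ν : Cart (mdl f) →* Multiplicative (Fin 3 → ℤ)) (hs : Function.Surjective ν) (hνk : ∀ D, ν D = 1 ↔ NumZ D)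
    (hH : ∀ A : Cart (mdl f), Ample A → ∃ a b c : ℝ, 0 < b ∧
      ∃ n₀ : ℕ, ∀ n : ℕ, n₀ ≤ n → (h0 A n : ℝ) = a * (n : ℝ) ^ 3 + b * n + c)
    (hK : KZero (mdl f)) (hq : NumT (mdl f)) (hG : (AutS f).Infinite) :
    ∃ (T : (Fin 3 → ℝ) → (Fin 3 → ℝ) → (Fin 3 → ℝ) → ℝ) (l : (Fin 3 → ℝ) → ℝ) (c : ℝ), HilbF ν T l c ∧
      DomY f ∧
      (∃ D : Cart (mdl f), cR ν D ∈ closure (AmpR ν) ∧ cR ν D ≠ 0 ∧ l (cR ν D) = 0) ∧
      (Q1Y f ↔ ∃ D : Cart (mdl f), cR ν D ∈ closure (AmpR ν) ∧ cR ν D ≠ 0 ∧ l (cR ν D) = 0 ∧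
        Pool.Agent.H39.TZ.EffR ν (cR ν D)) := by
  have h := Pool.Agent.H20.TU.hyp_smooth f hd hA
  have hSm := Pool.Agent.H20.TU.smP_mdl f hd
  have := Pool.Agent.H32.TK.t0_mdl f
  have hν : NumR ν := ⟨hs, hνk⟩
  obtain ⟨b₀, l₀, c, T, l, hT₀, hT, hl, hHR⟩ := exists_hilbR h hν hH
  have hr := hT₀.rr
  obtain ⟨b, hb'⟩ := exists_b h.var h.amp hν (nt_of h hr hν hT (nak_r h hr hν hT))
  have hfd := fd_of_basis h.var b
  obtain ⟨J, κ, hJ, hκ⟩ := hK
  have hloc : ∀ p ∈ closure (AmpR ν), p ≠ 0 →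
      (∀ w ∈ closure (AmpR ν), w ≠ 0 → T (p + w) (p + w) (p + w) = 0 → 0 < l w) → RatAt ν p := fun p hp hp0 hC =>
    (Pool.Agent.H20.AB.loc_l hSm h hr hν hT hHR.int hl hJ hκ hq hp hp0 hC).1
  have hfr := fr_of h hr hν hT hHR hb' (autG f) hloc
  have heff := effd_of h hr hν hT hHR hb' (autG f)
  have hG' : (grpR (autG f) b : Set (GL (Fin 3) ℤ)).Infinite := grp_inf h.var (autG f) (by rwa [← autS_eq])
  obtain ⟨hcov, hhull, hex, hall⟩ := abs3 hfr hG' heff
  have hgr : autR f b = grpR (autG f) b := by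
    unfold autR
    rw [autS_eq, grp_eq]
  have hP : Pres (autR f b) (ampR b) := by
    rw [hgr]
    exact Pool.Agent.H83.DC.pres_ampR (autG f) b
  have hV : FiniteVolume (ampR b) (autR f b) := (cov_iff_vol (isAmp_ampR h.var h.amp b) hP).1 (by rw [hgr]; exact hcov)
  obtain ⟨hQ, hD, -⟩ := mainY f hA b
  have hCA : ampR b = AmpR ν := pt_amp h.var hb'
  have hln : ∀ q ∈ closure (AmpR ν), 0 ≤ l q := by
    refine closure_minimal (t := {q | 0 ≤ l q}) ?_ (isClosed_le continuous_const l.continuous_of_finiteDimensional)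
    rintro _ ⟨m, c', D, hc', hD, rfl⟩
    show 0 ≤ l _
    rw [map_sum]
    refine Finset.sum_nonneg fun i _ => ?_
    rw [map_smul]
    exact mul_nonneg (hc' i).le (hHR.pos (D i) (hD i)).le
  have hcl : ∀ D : Cart (mdl f), cl D = pt b (cR ν D) := hb'
  refine ⟨Pool.Agent.H39.TZ.pl T, l, c, Pool.Agent.H39.TZ.hilbF_of hHR, hD.2 hV, ?_, ?_⟩
  · obtain ⟨w, hw0, hw, hlw⟩ := hex
    obtain ⟨D, hD⟩ := ci_surj hν w
    have e : cR ν D = toR w := by rw [← hD]; rfl
    rw [hCA] at hw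
    refine ⟨D, ?_, ?_, ?_⟩
    · rw [e]; exact hw
    · rw [e]; exact toR_ne_zero hw0
    · rw [e]; exact hlw
  · constructor
    · intro hq1
      have hNE := (hQ.1 hq1).2.1
      obtain ⟨w, hw0, hw, hlw⟩ := hex
      obtain ⟨D, hD⟩ := ci_surj hν w
      have e : cR ν D = toR w := by rw [← hD]; rfl
      rw [hCA] at hw
      refine ⟨D, ?_, ?_, ?_, ?_⟩
      · rw [e]; exact hw
      · rw [e]; exact toR_ne_zero hw0
      · rw [e]; exact hlw
      · rw [← eff_iff h.var hb', ← hcl]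
        refine hNE D ?_
        rw [hcl, ← cl_ampR h.var b, hCA, e]
        exact hw
    · rintro ⟨D, hD1, hD2, hD3, hD4⟩
      refine hQ.2 ⟨?_, fun E hE => ?_, hV⟩
      · rintro x ⟨hx1, hx2⟩
        obtain ⟨v, rfl⟩ := (pt_bij h.var b).2 x
        refine hull_np h.var hν hb' (hhull v ((cl_ampR h.var b v).2 hx1) ?_)
        rw [← mem_effs, ← eff_iff h.var hb']
        exact hx2
      · rw [hcl] at hE ⊢
        rw [← cl_ampR h.var b] at hE
        rw [eff_iff h.var hb']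
        rcases (hln _ (by rw [← hCA]; exact hE)).eq_or_lt with h0 | h0
        · rw [mem_effs]
          refine hall ⟨ci ν D, ?_, ?_, hD3, (mem_effs _).1 hD4⟩ (ci ν E) hE h0.symm
          · intro h1
            apply hD2
            show toR (ci ν D) = 0
            rw [h1, toR_zero]
          · rw [hCA]
            exact hD1
        · rw [hCA] at hE
          exact eff_int h hr hν hT hHR.int hl hE h0

end Pool.Agent.H20.P3G
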