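import Pool.Agent.H57.KM.Basic

/-!
# [H20 P3G InfOrd] An infinite group of integral matrices contains an element of infinite order

PROOF (Minkowski).  The reduction modulo `3` has finite image, so some `g ≠ 1` in `G` is `1` modulo `3`.  If `g` has finite order then some power `h ≠ 1` of `g` has prime order `p`; `h = 1 + 3 ^ s C`, `s ≥ 1`, implies
`3 ∣ C` (binomial formula), so `h = 1 + 3 ^ s C` for all `s`, `h = 1`.
-/

set_option autoImplicit false

namespace Pool.Agent.H20.P3G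

open Pool.Agent.H57.KM

variable {n : ℕ}

private theorem bin {R : Type} [Ring R] (x : R) (p : ℕ) : ∃ Q : R, (1 + x) ^ p = 1 + p • x + x * x * Q := by
  induction p with
  | zero => exact ⟨0, by simp⟩
  | succ p ih =>
    obtain ⟨Q, hQ⟩ := ih
    refine ⟨Q + p • (1 : R) + x * Q, ?_⟩
    have e : x * (x * x * Q) = x * x * (x * Q) := by simp only [mul_assoc]
    rw [pow_succ', hQ, add_mul, one_mul, mul_add, mul_add, mul_one, mul_smul_comm, succ_nsmul, mul_add, mul_add,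
      mul_smul_comm, mul_one, e]
    abel

private theorem stp {p : ℕ} (hp : p.Prime) {h : Matrix (Fin n) (Fin n) ℤ} (hh : h ^ p = 1) {s : ℕ} (hs : 1 ≤ s)
    (hC : ∃ C : Matrix (Fin n) (Fin n) ℤ, h = 1 + (3 ^ s : ℤ) • C) :
    ∃ C : Matrix (Fin n) (Fin n) ℤ, h = 1 + (3 ^ (s + 1) : ℤ) • C := by
  obtain ⟨C, hC⟩ := hC
  have h3s : (3 ^ s : ℤ) ≠ 0 := by positivity
  have hdiv : ∀ i j, (3 : ℤ) ∣ C i j := by
    intro i j
    by_cases hp3 : p = 3
    · subst hp3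
      obtain ⟨u, rfl⟩ : ∃ u, s = u + 1 := ⟨s - 1, by omega⟩
      have h1 : (3 ^ (u + 2) : ℤ) • (C + (3 ^ (u + 1) : ℤ) • (C * C) + (3 ^ (2 * u + 1) : ℤ) • (C * C * C)) = 0 := by
        have h2 : (1 + (3 ^ (u + 1) : ℤ) • C) ^ 3 - 1 = 0 := by rw [← hC, hh, sub_self]
        rw [← h2]
        have h4 : ∀ x : Matrix (Fin n) (Fin n) ℤ, (1 + x) ^ 3 - 1 = (3 : ℤ) • x + (3 : ℤ) • (x * x) + x * x * x := by
          intro x
          noncomm_ring
        rw [h4, smul_mul_smul_comm, smul_mul_smul_comm, smul_add, smul_add, smul_smul, smul_smul, smul_smul, smul_smul]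
        have e1 : (3 ^ (u + 2) : ℤ) = 3 * 3 ^ (u + 1) := by ring
        have e2 : (3 ^ (u + 2) * 3 ^ (u + 1) : ℤ) = 3 * (3 ^ (u + 1) * 3 ^ (u + 1)) := by ring
        have e3 : (3 ^ (u + 2) * 3 ^ (2 * u + 1) : ℤ) = 3 ^ (u + 1) * 3 ^ (u + 1) * 3 ^ (u + 1) := by ring
        rw [e2, e3, e1]
      have h5 := (smul_eq_zero.1 h1).resolve_left (by positivity)
      have h6 := congrFun (congrFun h5 i) j
      simp only [Matrix.add_apply, Matrix.smul_apply, smul_eq_mul, Matrix.zero_apply] at h6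
      refine ⟨-(3 ^ u * (C * C) i j + 3 ^ (2 * u) * (C * C * C) i j), ?_⟩
      rw [pow_succ, pow_succ] at h6
      linear_combination h6
    · obtain ⟨Q, hQ⟩ := bin ((3 ^ s : ℤ) • C) p
      rw [← hC, hh] at hQ
      have h1 : (3 ^ s : ℤ) • ((p : ℤ) • C + (3 ^ s : ℤ) • (C * C * Q)) = 0 := by
        have h2 : p • ((3 ^ s : ℤ) • C) = (3 ^ s : ℤ) • ((p : ℤ) • C) := by
          rw [← natCast_zsmul, smul_comm]
        have h4 : (3 ^ s : ℤ) • C * ((3 ^ s : ℤ) • C) * Q = (3 ^ s : ℤ) • ((3 ^ s : ℤ) • (C * C * Q)) := by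
          rw [smul_mul_smul_comm, smul_mul_assoc, smul_smul]
        rw [h2, h4] at hQ
        rw [smul_add]
        have h5 : (0 : Matrix (Fin n) (Fin n) ℤ) = 1 - 1 := (sub_self _).symm
        rw [h5]
        nth_rewrite 1 [hQ]
        abel
      have h5 := (smul_eq_zero.1 h1).resolve_left h3s
      have h6 := congrFun (congrFun h5 i) j
      simp only [Matrix.add_apply, Matrix.smul_apply, smul_eq_mul, Matrix.zero_apply] at h6
      have h7 : (3 : ℤ) ∣ (p : ℤ) * C i j := by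
        obtain ⟨u, rfl⟩ : ∃ u, s = u + 1 := ⟨s - 1, by omega⟩
        refine ⟨-(3 ^ u * (C * C * Q) i j), ?_⟩
        rw [pow_succ] at h6
        linear_combination h6
      have h8 : IsCoprime (3 : ℤ) (p : ℤ) := by
        rw [show (3 : ℤ) = ((3 : ℕ) : ℤ) by norm_num, Nat.isCoprime_iff_coprime]
        exact (Nat.coprime_primes Nat.prime_three hp).2 (fun h => hp3 h.symm)
      exact h8.dvd_of_dvd_mul_left h7
  choose q hq using hdiv
  refine ⟨Matrix.of q, ?_⟩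
  rw [hC]
  congr 1
  ext i j
  rw [Matrix.smul_apply, Matrix.smul_apply, Matrix.of_apply, hq, smul_eq_mul, smul_eq_mul, pow_succ]
  ring

private theorem one_of {p : ℕ} (hp : p.Prime) {h : Matrix (Fin n) (Fin n) ℤ} (hh : h ^ p = 1)
    (h0 : ∃ C : Matrix (Fin n) (Fin n) ℤ, h = 1 + (3 : ℤ) • C) : h = 1 := by
  have h1 : ∀ s : ℕ, 1 ≤ s → ∃ C : Matrix (Fin n) (Fin n) ℤ, h = 1 + (3 ^ s : ℤ) • C := by
    intro s hs
    induction s, hs using Nat.le_induction with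
    | base => simpa using h0
    | succ s hs ih => exact stp hp hh hs ih
  ext i j
  by_contra hne
  obtain ⟨z, hz⟩ : ∃ z : ℤ, z = h i j - (1 : Matrix (Fin n) (Fin n) ℤ) i j := ⟨_, rfl⟩
  have hz0 : z ≠ 0 := by
    rw [hz]
    exact sub_ne_zero.2 hne
  obtain ⟨C, hC⟩ := h1 (z.natAbs + 1) (by omega)
  have h2 : (3 ^ (z.natAbs + 1) : ℤ) ∣ z := by
    refine ⟨C i j, ?_⟩
    have h9 := congrFun (congrFun hC i) j
    rw [Matrix.add_apply, Matrix.smul_apply, smul_eq_mul] at h9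
    linear_combination hz + h9
  have h3 := Int.natAbs_dvd_natAbs.2 h2
  have h4 := Nat.le_of_dvd (Int.natAbs_pos.2 hz0) h3
  have h5 : (3 ^ (z.natAbs + 1) : ℤ).natAbs = 3 ^ (z.natAbs + 1) := by
    rw [Int.natAbs_pow]
    rfl
  rw [h5] at h4
  have h6 : z.natAbs + 1 < 3 ^ (z.natAbs + 1) := Nat.lt_pow_self (by norm_num)
  omega

theorem inf_order {G : Subgroup (GL (Fin n) ℤ)} (hG : (G : Set (GL (Fin n) ℤ)).Infinite) :
    ∃ g ∈ G, ∀ k : ℕ, 1 ≤ k → g ^ k ≠ 1 := by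
  obtain ⟨g, hg, hg1, B, hB⟩ : ∃ g ∈ G, g ≠ 1 ∧ ∃ B : Matrix (Fin n) (Fin n) ℤ,
      (g : Matrix (Fin n) (Fin n) ℤ) = 1 + (3 : ℤ) • B := by
    obtain ⟨g₁, h1, g₂, h2, hne, heq⟩ := hG.exists_ne_map_eq_of_mapsTo
      (f := fun g : GL (Fin n) ℤ => (g : Matrix (Fin n) (Fin n) ℤ).map (Int.cast : ℤ → ZMod 3))
      (t := Set.univ) (fun _ _ => Set.mem_univ _) Set.finite_univ
    have h3 : ∀ i j, ∃ q : ℤ, (g₁ : Matrix (Fin n) (Fin n) ℤ) i j = (g₂ : Matrix (Fin n) (Fin n) ℤ) i j + 3 * q := by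
      intro i j
      have h4 := congrFun (congrFun heq i) j
      simp only [Matrix.map_apply] at h4
      obtain ⟨q, hq⟩ := (ZMod.intCast_eq_intCast_iff_dvd_sub _ _ _).1 h4.symm
      refine ⟨q, ?_⟩
      push_cast at hq
      linarith
    choose q hq using h3
    refine ⟨g₁ * g₂⁻¹, G.mul_mem h1 (G.inv_mem h2), fun h => hne (mul_inv_eq_one.1 h),
      Matrix.of q * ((g₂⁻¹ : GL (Fin n) ℤ) : Matrix (Fin n) (Fin n) ℤ), ?_⟩
    have h5 : (g₁ : Matrix (Fin n) (Fin n) ℤ) = (g₂ : Matrix (Fin n) (Fin n) ℤ) + (3 : ℤ) • Matrix.of q := by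
      ext i j
      rw [Matrix.add_apply, Matrix.smul_apply, Matrix.of_apply, smul_eq_mul, hq]
    rw [Units.val_mul, h5, add_mul, smul_mul_assoc, Units.mul_inv]
  refine ⟨g, hg, fun k hk hgk => ?_⟩
  have hfo : IsOfFinOrder g := isOfFinOrder_iff_pow_eq_one.2 ⟨k, hk, hgk⟩
  have ho : orderOf g ≠ 1 := fun h => hg1 (orderOf_eq_one_iff.1 h)
  have hp := Nat.minFac_prime ho
  obtain ⟨m, hm⟩ := Nat.minFac_dvd (orderOf g)
  have hpos := hfo.orderOf_pos
  have hm0 : 0 < m := by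
    rcases Nat.eq_zero_or_pos m with h | h
    · rw [h, mul_zero] at hm
      omega
    · exact h
  have hmlt : m < orderOf g := by
    rw [hm]
    nlinarith [hp.two_le]
  have hne : g ^ m ≠ 1 := fun h => absurd (orderOf_le_of_pow_eq_one hm0 h) (by omega)
  apply hne
  apply Units.ext
  rw [Units.val_pow_eq_pow_val, Units.val_one]
  refine one_of hp ?_ ?_
  · rw [← pow_mul, mul_comm, ← hm, ← Units.val_pow_eq_pow_val, pow_orderOf_eq_one, Units.val_one]
  · obtain ⟨Q, hQ⟩ := bin ((3 : ℤ) • B) m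
    refine ⟨m • B + (3 : ℤ) • (B * B * Q), ?_⟩
    rw [hB, hQ, smul_mul_smul_comm, smul_mul_assoc, smul_add, smul_smul, smul_comm m (3 : ℤ) B, add_assoc]

end Pool.Agent.H20.P3G
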