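import Pool.Agent.H20.P3G.Fin
import Pool.Agent.H60.MR.Abs
import Pool.Agent.H20.P3G.InfOrd

/-!
# [H20 P3G FinMR] MAXIMAL RANK (MP_e49dc9_ag): the final statement

`mr_fin`: `Y` smooth projective threefold over `ℂ`, `K = 0`, `c₂ ≠ 0`, `q = 0`, Picard number `r + 2`, `r ≥ 1`; the automorphisms act on `N^1` through a group which contains
a free abelian group of rank `r` (`r = 1`: through an infinite group; `InfOrd`): they have a rational polyhedral fundamental domain on the hull of the rational nef classes; they have one on the effective nef cone if and only if one nonzero nef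
divisor `D` with `c₂ D = 0` is effective (there are such nef divisors).
-/

set_option autoImplicit false

namespace Pool.Agent.H20.P3G

open AlgebraicGeometry Pool.Agent.H54.RV Pool.Agent.H83.TU Pool.Agent.H20.TD Pool.Agent.H57.KM Pool.Agent.H20.FV
  Pool.Agent.H39.TZ Pool.Agent.H20.RT Pool.Agent.H60.P3 Pool.Agent.H39.KN
open Pool.Agent.H20.TP (cR)

/-- a free abelian group of maps in the coordinates -/
theorem beta_of {k K : Type} [Field k] [Field K] [Algebra k K] {X : Mod k K} [IsAlgClosed k] [CharZero k]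
    (hX : IsVar X) [FiniteDimensional ℝ (N1 X)] (Γ : Subgroup (MAut X)) {n : ℕ} (b : LatB X n) {r : ℕ}
    (a : (Fin r → ℤ) → N1 X → N1 X) (hinj : Function.Injective a) (hadd : ∀ s t, a (s + t) = a s ∘ a t)
    (ha : ∀ s, a s ∈ ActS Γ) :
    ∃ β : Multiplicative (Fin r → ℤ) →* GL (Fin n) ℤ, Function.Injective β ∧ ∀ t, β t ∈ grpR Γ b := by
  have h1 : ∀ s, ∃ A : GL (Fin n) ℤ, A ∈ grpR Γ b ∧ ∀ x : V n, a s (pt b x) = pt b (act A x) := by
    intro s
    obtain ⟨g, hg, h2⟩ := ha s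
    obtain ⟨A, hA⟩ := act_gl hX b g
    exact ⟨A, ⟨g, hg, hA⟩, fun x => by rw [h2]; exact hA x⟩
  choose A hAG hA using h1
  have hpt := pt_bij hX b
  have hmul : ∀ s t, A (s + t) = A s * A t := by
    intro s t
    apply act_inj
    intro x
    apply hpt.1
    rw [← hA, hadd, act_mul, ← hA, ← hA]
    rfl
  refine ⟨MonoidHom.mk' (fun t => A (Multiplicative.toAdd t)) fun s t => hmul _ _, ?_, fun t => hAG _⟩
  intro s t hst
  have h3 : A (Multiplicative.toAdd s) = A (Multiplicative.toAdd t) := hst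
  apply Multiplicative.toAdd.injective
  apply hinj
  funext v
  obtain ⟨x, rfl⟩ := hpt.2 v
  rw [hA, hA, h3]

/-- an infinite group contains an infinite cyclic group -/
theorem a_of {k K : Type} [Field k] [Field K] [Algebra k K] {X : Mod k K} [IsAlgClosed k] [CharZero k]
    (hX : IsVar X) [FiniteDimensional ℝ (N1 X)] (Γ : Subgroup (MAut X)) {n : ℕ} (b : LatB X n)
    (hG : (ActS Γ).Infinite) :
    ∃ a : (Fin 1 → ℤ) → N1 X → N1 X, Function.Injective a ∧ (∀ s t, a (s + t) = a s ∘ a t) ∧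
      ∀ s, a s ∈ ActS Γ := by
  obtain ⟨A, hA, hA1⟩ := inf_order (grp_inf (b := b) hX Γ hG)
  have hpt := pt_bij hX b
  obtain ⟨q, hq⟩ : ∃ q : N1 X → V n, ∀ v, pt b (q v) = v := ⟨Function.surjInv hpt.2, Function.surjInv_eq hpt.2⟩
  have hq' : ∀ x, q (pt b x) = x := fun x => hpt.1 (hq _)
  refine ⟨fun s v => pt b (act (A ^ (s 0)) (q v)), ?_, ?_, ?_⟩
  · intro s t hst
    have h1 : A ^ (s 0) = A ^ (t 0) := by
      apply act_inj
      intro x
      have h2 := congrFun hst (pt b x)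
      simp only [hq'] at h2
      exact hpt.1 h2
    have h3 : s 0 = t 0 := by
      have key : ∀ m n : ℤ, m < n → A ^ m ≠ A ^ n := by
        intro m n hmn h4
        obtain ⟨u, hu⟩ : ∃ u : ℕ, n = m + u := ⟨(n - m).toNat, by omega⟩
        rw [hu, zpow_add, zpow_natCast] at h4
        exact hA1 u (by omega) (mul_left_cancel (h4.symm.trans (mul_one _).symm))
      by_contra hne
      rcases lt_or_gt_of_ne hne with h4 | h4
      · exact key _ _ h4 h1
      · exact key _ _ h4 h1.symm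
    funext i
    rw [Subsingleton.elim i 0]
    exact h3
  · intro s t
    funext v
    show pt b (act (A ^ (s 0 + t 0)) (q v)) = pt b (act (A ^ (s 0)) (q (pt b (act (A ^ (t 0)) (q v)))))
    rw [hq', zpow_add, act_mul]
  · intro s
    obtain ⟨g, hg, h1⟩ : A ^ (s 0) ∈ grpR Γ b := (grpR Γ b).zpow_mem hA _
    refine ⟨g, hg, funext fun v => ?_⟩
    show pt b (act (A ^ (s 0)) (q v)) = g.act v
    rw [← h1, hq]

/-- the geometric statement from the abstract one -/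
theorem cn_fin {Y : Scheme.{0}} [IsIntegral Y] (f : Y ⟶ Spec (.of ℂ)) [IsProper f] [Smooth f]
    (hd : Algebra.trdeg ℂ (FF f) = 3) (hA : ∃ D : Cart (mdl f), Ample D) {n : ℕ}
    (ν : Cart (mdl f) →* Multiplicative (Fin n → ℤ)) (hs : Function.Surjective ν) (hνk : ∀ D, ν D = 1 ↔ NumZ D)
    (hH : ∀ A : Cart (mdl f), Ample A → ∃ a b c : ℝ, 0 < b ∧
      ∃ n₀ : ℕ, ∀ n : ℕ, n₀ ≤ n → (h0 A n : ℝ) = a * (n : ℝ) ^ 3 + b * n + c)
    (hK : KZero (mdl f)) (hq : NumT (mdl f))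
    (hab : IsVar (mdl f) → FiniteDimensional ℝ (N1 (mdl f)) → ∀ (b : LatB (mdl f) n) (C : Set (V n))
      (T : V n →ₗ[ℝ] V n →ₗ[ℝ] V n →ₗ[ℝ] ℝ) (l : V n →ₗ[ℝ] ℝ) (E : Set (Fin n → ℤ)), Fr C (grpR (autG f) b) T l →
      EffD C (grpR (autG f) b) T E → Pool.Agent.H60.MR.Concl C (grpR (autG f) b) l E) :
    ∃ (T : (Fin n → ℝ) → (Fin n → ℝ) → (Fin n → ℝ) → ℝ) (l : (Fin n → ℝ) → ℝ) (c : ℝ), HilbF ν T l c ∧
      DomY f ∧
      (∃ D : Cart (mdl f), cR ν D ∈ closure (AmpR ν) ∧ cR ν D ≠ 0 ∧ l (cR ν D) = 0) ∧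
      (Q1Y f ↔ ∃ D : Cart (mdl f), cR ν D ∈ closure (AmpR ν) ∧ cR ν D ≠ 0 ∧ l (cR ν D) = 0 ∧
        Pool.Agent.H39.TZ.EffR ν (cR ν D)) := by
  have h := Pool.Agent.H20.TU.hyp_smooth f hd hA
  have hSm := Pool.Agent.H20.TU.smP_mdl f hd
  have := Pool.Agent.H32.TK.t0_mdl f
  have hν : NumR ν := ⟨hs, hνk⟩
  obtain ⟨b₀, l₀, c, T, l, hT₀, hT, hl, hHR⟩ := exists_hilbR h hν hH
  have hr := hT₀.rr
  obtain ⟨b, hb'⟩ := exists_b h.var h.amp hν (nt_of h hr hν hT (nak_r h hr hν hT))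
  have hfd := fd_of_basis h.var b
  obtain ⟨J, κ, hJ, hκ⟩ := hK
  have hloc : ∀ p ∈ closure (AmpR ν), p ≠ 0 →
      (∀ w ∈ closure (AmpR ν), w ≠ 0 → T (p + w) (p + w) (p + w) = 0 → 0 < l w) → RatAt ν p := fun p hp hp0 hC =>
    (Pool.Agent.H20.AB.loc_l hSm h hr hν hT hHR.int hl hJ hκ hq hp hp0 hC).1
  have hfr := fr_of h hr hν hT hHR hb' (autG f) hloc
  have heff := effd_of h hr hν hT hHR hb' (autG f)
  obtain ⟨hcov, hhull, hex, hall⟩ := hab h.var hfd b _ _ _ _ hfr heff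
  have hgr : autR f b = grpR (autG f) b := by
    unfold autR
    rw [autS_eq, grp_eq]
  have hP : Pres (autR f b) (ampR b) := by
    rw [hgr]
    exact Pool.Agent.H83.DC.pres_ampR (autG f) b
  have hV : FiniteVolume (ampR b) (autR f b) := (cov_iff_vol (isAmp_ampR h.var h.amp b) hP).1 (by rw [hgr]; exact hcov)
  obtain ⟨hQ, hD, -⟩ := mainY f hA b
  have hCA : ampR b = AmpR ν := pt_amp h.var hb'
  have hln : ∀ q ∈ closure (AmpR ν), 0 ≤ l q := by
    refine closure_minimal (t := {q | 0 ≤ l q}) ?_ (isClosed_le continuous_const l.continuous_of_finiteDimensional)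
    rintro _ ⟨m, c', D, hc', hD, rfl⟩
    show 0 ≤ l _
    rw [map_sum]
    refine Finset.sum_nonneg fun i _ => ?_
    rw [map_smul]
    exact mul_nonneg (hc' i).le (hHR.pos (D i) (hD i)).le
  have hcl : ∀ D : Cart (mdl f), cl D = pt b (cR ν D) := hb'
  refine ⟨Pool.Agent.H39.TZ.pl T, l, c, Pool.Agent.H39.TZ.hilbF_of hHR, hD.2 hV, ?_, ?_⟩
  · obtain ⟨w, hw0, hw, hlw⟩ := hex
    obtain ⟨D, hD⟩ := ci_surj hν w
    have e : cR ν D = toR w := by rw [← hD]; rfl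
    rw [hCA] at hw
    refine ⟨D, ?_, ?_, ?_⟩
    · rw [e]; exact hw
    · rw [e]; exact toR_ne_zero hw0
    · rw [e]; exact hlw
  · constructor
    · intro hq1
      have hNE := (hQ.1 hq1).2.1
      obtain ⟨w, hw0, hw, hlw⟩ := hex
      obtain ⟨D, hD⟩ := ci_surj hν w
      have e : cR ν D = toR w := by rw [← hD]; rfl
      rw [hCA] at hw
      refine ⟨D, ?_, ?_, ?_, ?_⟩
      · rw [e]; exact hw
      · rw [e]; exact toR_ne_zero hw0
      · rw [e]; exact hlw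
      · rw [← eff_iff h.var hb', ← hcl]
        refine hNE D ?_
        rw [hcl, ← cl_ampR h.var b, hCA, e]
        exact hw
    · rintro ⟨D, hD1, hD2, hD3, hD4⟩
      refine hQ.2 ⟨?_, fun E hE => ?_, hV⟩
      · rintro x ⟨hx1, hx2⟩
        obtain ⟨v, rfl⟩ := (pt_bij h.var b).2 x
        refine hull_np h.var hν hb' (hhull v ((cl_ampR h.var b v).2 hx1) ?_)
        rw [← mem_effs, ← eff_iff h.var hb']
        exact hx2
      · rw [hcl] at hE ⊢
        rw [← cl_ampR h.var b] at hE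
        rw [eff_iff h.var hb']
        rcases (hln _ (by rw [← hCA]; exact hE)).eq_or_lt with h0 | h0
        · rw [mem_effs]
          refine hall ⟨ci ν D, ?_, ?_, hD3, (mem_effs _).1 hD4⟩ (ci ν E) hE h0.symm
          · intro h1
            apply hD2
            show toR (ci ν D) = 0
            rw [h1, toR_zero]
          · rw [hCA]
            exact hD1
        · rw [hCA] at hE
          exact eff_int h hr hν hT hHR.int hl hE h0

/-- **the cone conjecture for maximal rank** -/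
theorem mr_fin {Y : Scheme.{0}} [IsIntegral Y] (f : Y ⟶ Spec (.of ℂ)) [IsProper f] [Smooth f]
    (hd : Algebra.trdeg ℂ (FF f) = 3) (hA : ∃ D : Cart (mdl f), Ample D) {r : ℕ} (hr : 1 ≤ r)
    (ν : Cart (mdl f) →* Multiplicative (Fin (r + 2) → ℤ)) (hs : Function.Surjective ν) (hνk : ∀ D, ν D = 1 ↔ NumZ D)
    (hH : ∀ A : Cart (mdl f), Ample A → ∃ a b c : ℝ, 0 < b ∧
      ∃ n₀ : ℕ, ∀ n : ℕ, n₀ ≤ n → (h0 A n : ℝ) = a * (n : ℝ) ^ 3 + b * n + c)
    (hK : KZero (mdl f)) (hq : NumT (mdl f))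
    (hG : (r = 1 ∧ (AutS f).Infinite) ∨ ∃ a : (Fin r → ℤ) → N1 (mdl f) → N1 (mdl f), Function.Injective a ∧
      (∀ s t, a (s + t) = a s ∘ a t) ∧ ∀ s, a s ∈ AutS f) :
    ∃ (T : (Fin (r + 2) → ℝ) → (Fin (r + 2) → ℝ) → (Fin (r + 2) → ℝ) → ℝ) (l : (Fin (r + 2) → ℝ) → ℝ) (c : ℝ),
      HilbF ν T l c ∧ DomY f ∧
      (∃ D : Cart (mdl f), cR ν D ∈ closure (AmpR ν) ∧ cR ν D ≠ 0 ∧ l (cR ν D) = 0) ∧
      (Q1Y f ↔ ∃ D : Cart (mdl f), cR ν D ∈ closure (AmpR ν) ∧ cR ν D ≠ 0 ∧ l (cR ν D) = 0 ∧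
        Pool.Agent.H39.TZ.EffR ν (cR ν D)) := by
  refine cn_fin f hd hA ν hs hνk hH hK hq fun hX hfd b C T l E hfr hE => ?_
  obtain ⟨a, ha1, ha2, ha3⟩ : ∃ a : (Fin r → ℤ) → N1 (mdl f) → N1 (mdl f), Function.Injective a ∧
      (∀ s t, a (s + t) = a s ∘ a t) ∧ ∀ s, a s ∈ ActS (autG f) := by
    rcases hG with ⟨rfl, hi⟩ | h
    · exact a_of hX (autG f) b (by rw [← autS_eq]; exact hi)
    · rw [← autS_eq]
      exact h
  obtain ⟨β, hβ, hβG⟩ := beta_of hX (autG f) b a ha1 ha2 ha3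
  exact Pool.Agent.H60.MR.absMR hfr rfl hr hβ hβG hE

end Pool.Agent.H20.P3G
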