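import Pool.Agent.H20.AB.Lo
import Pool.Agent.H83.TU.QV
import Pool.Agent.H54.RV.Front

/-!
# [H20 P3G Geo1] PICARD NUMBER THREE (MP_e49dc9_ag): the forms are invariant under the automorphisms

* `h0_pull`: the pull-back has the same sections.
* `q_inv`: `T(g w, g w, g w) = T(w, w, w)`, `l(g w) = l(w)`.
* `act_cr`: the matrix of `g` maps the class of `D` to the class of the pull-back of `D`.
* `t_inv`, `l_inv`: the forms are invariant under the matrices.
-/

set_option autoImplicit false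

namespace Pool.Agent.H20.P3G

open Pool.Agent.H54.RV Pool.Agent.H83.TU Pool.Agent.H20.TD Pool.Agent.H20.TP Pool.Agent.H57.KM Pool.Agent.H20.FV
  Pool.Agent.H39.TZ

variable {k K : Type} [Field k] [Field K] [Algebra k K] {X : Mod k K} {r : ℕ}
  {ν : Cart X →* Multiplicative (Fin r → ℤ)} {T : Tri3 r} {l : (Fin r → ℝ) →ₗ[ℝ] ℝ} {c : ℝ}

theorem sec_pull (g : MAut X) (D : Cart X) (n : ℕ) (s : K) : Sec (g.pull D) n (g.τ s) ↔ Sec D n s := by
  have e : ∀ y, g.τ s * (g.pull D).eq y ^ n = g.τ (s * D.eq (g.σ y) ^ n) := fun y => by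
    rw [map_mul, map_pow]
    rfl
  constructor
  · intro h x
    obtain ⟨y, rfl⟩ := g.σ.surjective x
    have h1 := h y
    rw [e, g.loc] at h1
    exact h1
  · intro h y
    rw [e, g.loc]
    exact h _

theorem h0_pull (g : MAut X) (D : Cart X) (n : ℕ) : h0 (g.pull D) n = h0 D n := by
  unfold h0
  have h1 : secL (g.pull D) n = (secL D n).map (g.τ.toLinearEquiv : K →ₗ[k] K) := by
    ext s
    rw [Submodule.mem_map]
    constructor
    · intro hs
      refine ⟨g.τ.symm s, ?_, by simp⟩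
      rw [mem_secL, ← sec_pull g, AlgEquiv.apply_symm_apply]
      exact hs
    · rintro ⟨t, ht, rfl⟩
      exact (sec_pull g D n t).2 ht
  rw [h1]
  exact (LinearEquiv.finrank_eq (g.τ.toLinearEquiv.submoduleMap (secL D n))).symm

theorem pull_pow (g : MAut X) (D : Cart X) (n : ℕ) : g.pull (D ^ n) = g.pull D ^ n := by
  induction n with
  | zero =>
    rw [pow_zero, pow_zero]
    exact Cart.ext' _ _ fun _ => map_one g.τ
  | succ n ih => rw [pow_succ, pow_succ, pull_dmul, ih]

theorem cr_mul (U V : Cart X) : cR ν (U * V) = cR ν U + cR ν V := by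
  show rv (ci ν (U * V)) = _
  rw [ci_mul, rv_add]

theorem cr_pow (U : Cart X) (n : ℕ) : cR ν (U ^ n) = (n : ℝ) • cR ν U := by
  show rv (ci ν (U ^ n)) = _
  rw [ci_pow]
  funext i
  simp [rv]

/-- the value of the Hilbert polynomial at `W A ^ n` -/
theorem chi_line (hH : HilbR ν T l c) (w a : Fin r → ℝ) (n : ℝ) :
    T (w + n • a) (w + n • a) (w + n • a) / 6 + l (w + n • a) + c =
      T a a a / 6 * n ^ 3 + T w a a / 2 * n ^ 2 + (T w w a / 2 + l a) * n + (T w w w / 6 + l w + c) := by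
  have e1 : T w a w = T w w a := hH.s23 _ _ _
  have e2 : T a w w = T w w a := by rw [hH.s12, hH.s23]
  have e3 : T a w a = T w a a := hH.s12 _ _ _
  have e4 : T a a w = T w a a := by rw [hH.s23, hH.s12]
  simp only [map_add, map_smul, LinearMap.add_apply, LinearMap.smul_apply, smul_eq_mul, e1, e2, e3, e4]
  ring

theorem q_const (hH : HilbR ν T l c) {A : Cart X} (hA : Ample A) (g : MAut X) (W : Cart X) :
    T (cR ν (g.pull W)) (cR ν (g.pull W)) (cR ν (g.pull W)) / 6 + l (cR ν (g.pull W)) =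
      T (cR ν W) (cR ν W) (cR ν W) / 6 + l (cR ν W) := by
  obtain ⟨n₁, h1⟩ := hH.ev W A hA
  obtain ⟨n₂, h2⟩ := hH.ev (g.pull W) (g.pull A) (ample_pull g A hA)
  have key := poly_inf (n₀ := max n₁ n₂)
    (p := Polynomial.C (T (cR ν (g.pull A)) (cR ν (g.pull A)) (cR ν (g.pull A)) / 6) * Polynomial.X ^ 3 +
      Polynomial.C (T (cR ν (g.pull W)) (cR ν (g.pull A)) (cR ν (g.pull A)) / 2) * Polynomial.X ^ 2 +
      Polynomial.C (T (cR ν (g.pull W)) (cR ν (g.pull W)) (cR ν (g.pull A)) / 2 + l (cR ν (g.pull A))) * Polynomial.X +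
      Polynomial.C (T (cR ν (g.pull W)) (cR ν (g.pull W)) (cR ν (g.pull W)) / 6 + l (cR ν (g.pull W)) + c))
    (q := Polynomial.C (T (cR ν A) (cR ν A) (cR ν A) / 6) * Polynomial.X ^ 3 +
      Polynomial.C (T (cR ν W) (cR ν A) (cR ν A) / 2) * Polynomial.X ^ 2 +
      Polynomial.C (T (cR ν W) (cR ν W) (cR ν A) / 2 + l (cR ν A)) * Polynomial.X +
      Polynomial.C (T (cR ν W) (cR ν W) (cR ν W) / 6 + l (cR ν W) + c)) (fun n hn => by
    have a1 := h1 n (le_trans (le_max_left _ _) hn)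
    have a2 := h2 n (le_trans (le_max_right _ _) hn)
    rw [← pull_pow, ← pull_dmul, h0_pull, pull_dmul, pull_pow] at a2
    rw [a1, cr_mul, cr_pow, chi_line hH] at a2
    rw [cr_mul, cr_pow, chi_line hH] at a2
    simp only [Polynomial.eval_add, Polynomial.eval_mul, Polynomial.eval_C, Polynomial.eval_pow, Polynomial.eval_X]
    exact a2.symm)
  have h3 := congrArg (Polynomial.eval 0) key
  simp only [Polynomial.eval_add, Polynomial.eval_mul, Polynomial.eval_C, Polynomial.eval_pow, Polynomial.eval_X] at h3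
  linarith

theorem q_inv (hH : HilbR ν T l c) (hA : ∃ A : Cart X, Ample A) (g : MAut X) (W : Cart X) :
    T (cR ν (g.pull W)) (cR ν (g.pull W)) (cR ν (g.pull W)) = T (cR ν W) (cR ν W) (cR ν W) ∧
      l (cR ν (g.pull W)) = l (cR ν W) := by
  obtain ⟨A, hA⟩ := hA
  have h1 := q_const hH hA g W
  have h2 := q_const hH hA g (W ^ 2)
  rw [pull_pow, cr_pow, cr_pow] at h2
  simp only [map_smul, LinearMap.smul_apply, smul_eq_mul] at h2
  push_cast at h2
  constructor <;> linarith

theorem t_pol (hH : HilbR ν T l c) (hA : ∃ A : Cart X, Ample A) (g : MAut X) (U V W : Cart X) :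
    T (cR ν (g.pull U)) (cR ν (g.pull V)) (cR ν (g.pull W)) = T (cR ν U) (cR ν V) (cR ν W) := by
  have key : ∀ u v w : Fin r → ℝ, 6 * T u v w = T (u + v + w) (u + v + w) (u + v + w) - T (u + v) (u + v) (u + v) -
      T (u + w) (u + w) (u + w) - T (v + w) (v + w) (v + w) + T u u u + T v v v + T w w w := by
    intro u v w
    have e1 : T u w v = T u v w := hH.s23 _ _ _
    have e2 : T v u w = T u v w := hH.s12 _ _ _
    have e3 : T v w u = T u v w := by rw [hH.s23, hH.s12]
    have e4 : T w u v = T u v w := by rw [hH.s12, hH.s23]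
    have e5 : T w v u = T u v w := by rw [hH.s23, hH.s12, hH.s23]
    simp only [map_add, LinearMap.add_apply, e1, e2, e3, e4, e5]
    ring
  have h1 := key (cR ν (g.pull U)) (cR ν (g.pull V)) (cR ν (g.pull W))
  have h2 := key (cR ν U) (cR ν V) (cR ν W)
  simp only [← cr_mul, ← pull_dmul] at h1 h2
  rw [(q_inv hH hA g _).1, (q_inv hH hA g _).1, (q_inv hH hA g _).1, (q_inv hH hA g _).1, (q_inv hH hA g _).1,
    (q_inv hH hA g _).1, (q_inv hH hA g _).1] at h1
  linarith

variable {b : LatB X r} {A : GL (Fin r) ℤ} [IsAlgClosed k] [CharZero k]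

theorem act_cr (hX : IsVar X) [FiniteDimensional ℝ (N1 X)] (hb : ∀ D, cl D = pt b (rv (ci ν D))) {g : MAut X}
    (hg : ∀ x : V r, g.act (pt b x) = pt b (act A x)) (D : Cart X) : act A (cR ν D) = cR ν (g.pull D) := by
  refine (pt_bij hX b).1 ?_
  have h1 := hg (cR ν D)
  have h2 : pt b (cR ν D) = cl D := (hb D).symm
  rw [← h1, h2, MAut.act_cl, hb]

theorem t_inv (hX : IsVar X) [FiniteDimensional ℝ (N1 X)] (hν : NumR ν) (hH : HilbR ν T l c)
    (hA : ∃ A : Cart X, Ample A) (hb : ∀ D, cl D = pt b (rv (ci ν D))) {g : MAut X}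
    (hg : ∀ x : V r, g.act (pt b x) = pt b (act A x)) (u v w : Fin r → ℝ) :
    T (act A u) (act A v) (act A w) = T u v w := by
  have h1 : ∀ U V : Cart X, (T (act A (cR ν U)) (act A (cR ν V))) ∘ₗ (actL A) = T (cR ν U) (cR ν V) := fun U V =>
    ext_uniq hν fun W => by
      show T (act A (cR ν U)) (act A (cR ν V)) (act A (cR ν W)) = T (cR ν U) (cR ν V) (cR ν W)
      rw [act_cr hX hb hg, act_cr hX hb hg, act_cr hX hb hg]
      exact t_pol hH hA g U V W
  have h2 : ∀ (U : Cart X) (w : Fin r → ℝ), ((T (act A (cR ν U))).flip (act A w)) ∘ₗ (actL A) = (T (cR ν U)).flip w :=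
    fun U w => ext_uniq hν fun V => LinearMap.congr_fun (h1 U V) w
  have h3 : ∀ v w : Fin r → ℝ, ((T.flip (act A v)).flip (act A w)) ∘ₗ (actL A) = (T.flip v).flip w :=
    fun v w => ext_uniq hν fun U => LinearMap.congr_fun (h2 U w) v
  exact LinearMap.congr_fun (h3 v w) u

theorem l_inv (hX : IsVar X) [FiniteDimensional ℝ (N1 X)] (hν : NumR ν) (hH : HilbR ν T l c)
    (hA : ∃ A : Cart X, Ample A) (hb : ∀ D, cl D = pt b (rv (ci ν D))) {g : MAut X}
    (hg : ∀ x : V r, g.act (pt b x) = pt b (act A x)) (u : Fin r → ℝ) : l (act A u) = l u := by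
  have h1 : l ∘ₗ (actL A) = l := ext_uniq hν fun U => by
    show l (act A (cR ν U)) = l (cR ν U)
    rw [act_cr hX hb hg]
    exact (q_inv hH hA g U).2
  exact LinearMap.congr_fun h1 u

end Pool.Agent.H20.P3G
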