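import Pool.Agent.H20.P3G.Geo1
import Pool.Agent.H60.P3.Def
import Pool.Agent.H83.DC.Real

/-!
# [H20 P3G Geo2] PICARD NUMBER THREE (MP_e49dc9_ag): positivity

* `nef_pos`: `T(p, A, A) > 0` for nef `p ≠ 0` and ample `A`.
* `nn_e`: `T(p, q, E) ≥ 0` for nef `p`, `q` and effective `E`.
* `pos_e`: `T(A, A, E) > 0` for effective `E` with a nonzero class.
* `pos_uu`: `T(u, u, w) > 0` for `u` in the ample cone and nef `w ≠ 0`; the same for effective classes.
-/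

set_option autoImplicit false

namespace Pool.Agent.H20.P3G

open Pool.Agent.H54.RV Pool.Agent.H83.TU Pool.Agent.H20.TD Pool.Agent.H20.TP Pool.Agent.H57.KM Pool.Agent.H20.FV
  Pool.Agent.H39.TZ Pool.Agent.H20.RT
open Pool.Agent.H24.VP (RR chS)

variable {k K : Type} [Field k] [Field K] [Algebra k K] {X : Mod k K} {r : ℕ}
  {ν : Cart X →* Multiplicative (Fin r → ℤ)} {T : Cart X → Cart X → Cart X → ℝ} {l₀ : Cart X → ℝ} {c : ℝ} {TR : Tri3 r}
  {l : (Fin r → ℝ) →ₗ[ℝ] ℝ} {p q v w : Fin r → ℝ} {A : Cart X}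

theorem nef_pos [CharZero k] [IsAlgClosed k] [T0Space X.P] (h : Hyp X) (hr : RR T l₀ c) (hν : NumR ν)
    (hT : ∀ U V W, TR (cR ν U) (cR ν V) (cR ν W) = T U V W) (hA : Ample A) (hp : p ∈ closure (CC ν)) (hp0 : p ≠ 0) :
    0 < TR p (cR ν A) (cR ν A) := by
  have hAC : cR ν A ∈ closure (CC ν) := subset_closure (cc_amp h.var hν hA)
  rcases (tr_nn h hr hν hT hp hAC hAC).eq_or_lt with h1 | h1
  · have h2 := pq_zero h hr hν hT hA hp hAC h1.symm
    have h3 : TR p p (cR ν A) = 0 := by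
      rw [tr_s23 hr hν hT, h2, LinearMap.zero_apply]
    exact (hp0 (Pool.Agent.H83.RT.num_zero h hr hν hT fun x hx => curves_zero h hr hν hT hA
      (fun u => by rw [h2, LinearMap.zero_apply]) h3 hx)).elim
  · exact h1

theorem nn_e [CharZero k] [T0Space X.P] (h : Hyp X) (hr : RR T l₀ c) (hν : NumR ν)
    (hT : ∀ U V W, TR (cR ν U) (cR ν V) (cR ν W) = T U V W) {E : Cart X} (hE : Effective E)
    (hp : p ∈ closure (AmpR ν)) (hq : q ∈ closure (AmpR ν)) : 0 ≤ TR p q (cR ν E) := by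
  have h1 : ∀ x ∈ (AmpR ν) ×ˢ (AmpR ν), 0 ≤ TR x.1 x.2 (cR ν E) := by
    rintro ⟨x, y⟩ ⟨⟨m₁, c₁, D₁, a1, a2, rfl⟩, ⟨m₂, c₂, D₂, b1, b2, rfl⟩⟩
    simp only [map_sum, map_smul, LinearMap.sum_apply, LinearMap.smul_apply, smul_eq_mul]
    refine Finset.sum_nonneg fun i _ => mul_nonneg (b1 i).le (Finset.sum_nonneg fun j _ => mul_nonneg (a1 j).le ?_)
    have := hT (D₁ j) (D₂ i) E
    rw [this]
    exact Pool.Agent.H24.VP.nn_eff h hr (fun B hB => ample_mul h.var B (D₁ j) hB (a2 j)) (b2 i) hE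
  have h2 : (p, q) ∈ closure ((AmpR ν) ×ˢ (AmpR ν)) := by
    rw [closure_prod_eq]
    exact ⟨hp, hq⟩
  exact closure_minimal h1 (isClosed_le continuous_const
    ((cont3 TR).comp (continuous_fst.prodMk (continuous_snd.prodMk continuous_const)))) h2

theorem pos_e [CharZero k] [IsAlgClosed k] [T0Space X.P] (h : Hyp X) (hr : RR T l₀ c) (hν : NumR ν)
    (hT : ∀ U V W, TR (cR ν U) (cR ν V) (cR ν W) = T U V W) (hA : Ample A) {E : Cart X} (hE : Effective E)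
    (hE0 : cR ν E ≠ 0) : 0 < TR (cR ν A) (cR ν A) (cR ν E) := by
  rw [hT]
  refine Pool.Agent.H24.VP.pos_eff h hr hA hA hE fun hE' => hE0 ?_
  have hz : ∀ U V, TR (cR ν E) (cR ν U) (cR ν V) = 0 := fun U V => by
    rw [hT]
    exact Pool.Agent.H24.VP.triv_T h hr hE hE' U V
  have h1 : ∀ U, TR (cR ν E) (cR ν U) = 0 := fun U => ext_uniq hν fun V => hz U V
  refine Pool.Agent.H83.RT.num_zero h hr hν hT fun x hx => curves_zero h hr hν hT hA (fun u => ?_) (hz E A) hx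
  rw [h1, LinearMap.zero_apply]

end Pool.Agent.H20.P3G
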