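import Pool.Agent.H20.P3G.Geo2

/-!
# [H20 P3G Geo3] PICARD NUMBER THREE (MP_e49dc9_ag): the frame of the abstract theorem

* `effE ν`: the classes of the effective divisors in the lattice.
* `fr_of`: the frame `Fr`.  `effd_of`: the properties of the effective classes.
* `mem_effs`: `EffR ν x ↔ x ∈ EffS (effE ν)`.
-/

set_option autoImplicit false

namespace Pool.Agent.H20.P3G

open Pool.Agent.H54.RV Pool.Agent.H83.TU Pool.Agent.H20.TD Pool.Agent.H20.TP Pool.Agent.H57.KM Pool.Agent.H20.FV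
  Pool.Agent.H39.TZ Pool.Agent.H20.RT Pool.Agent.H60.P3
open Pool.Agent.H24.VP (RR chS)

variable {k K : Type} [Field k] [Field K] [Algebra k K] {X : Mod k K} {r : ℕ}
  {ν : Cart X →* Multiplicative (Fin r → ℤ)} {T : Cart X → Cart X → Cart X → ℝ} {l₀ : Cart X → ℝ} {c : ℝ} {TR : Tri3 r}
  {l : (Fin r → ℝ) →ₗ[ℝ] ℝ}

/-- the classes of the effective divisors -/
def effE (ν : Cart X →* Multiplicative (Fin r → ℤ)) : Set (Fin r → ℤ) := {d | ∃ D : Cart X, Effective D ∧ ci ν D = d}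

theorem mem_effs (x : Fin r → ℝ) : Pool.Agent.H39.TZ.EffR ν x ↔ x ∈ EffS (effE ν) := by
  constructor
  · rintro ⟨m, a, E, h1, rfl⟩
    exact ⟨m, a, fun i => ci ν (E i), fun i => (h1 i).1, fun i => ⟨E i, (h1 i).2, rfl⟩, rfl⟩
  · rintro ⟨m, a, d, h1, h2, rfl⟩
    choose D hD hd using h2
    refine ⟨m, a, D, fun i => ⟨h1 i, hD i⟩, Finset.sum_congr rfl fun i _ => ?_⟩
    rw [← hd i]
    rfl

variable [IsAlgClosed k] [CharZero k] [T0Space X.P]

omit [IsAlgClosed k] [CharZero k] [T0Space X.P] in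
theorem pos_uu (h : Hyp X) {u : Fin r → ℝ} (hC : IsAmp (AmpR ν)) (hu : u ∈ AmpR ν)
    {L : (Fin r → ℝ) →ₗ[ℝ] (Fin r → ℝ) →ₗ[ℝ] ℝ} (hs : ∀ x y, L x y = L y x)
    (hnn : ∀ x ∈ closure (AmpR ν), ∀ y ∈ closure (AmpR ν), 0 ≤ L x y)
    (hA : ∀ A, Ample A → 0 < L (cR ν A) (cR ν A)) : 0 < L u u := by
  obtain ⟨A, hA'⟩ := h.amp
  have hAC : cR ν A ∈ AmpR ν := ⟨0, fun _ => 1, fun _ => A, fun _ => one_pos, fun _ => hA', by simp⟩
  obtain ⟨e, he, h1⟩ := hC.oc.exists_sub hu (cR ν A)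
  obtain ⟨v, hv⟩ : ∃ v, v = u - e • cR ν A := ⟨_, rfl⟩
  have hu' : u = e • cR ν A + v := by rw [hv]; abel
  rw [← hv] at h1
  have a1 := hnn _ (subset_closure hAC) _ (subset_closure h1)
  have a2 := hnn _ (subset_closure h1) _ (subset_closure h1)
  have a3 := hA A hA'
  have e1 : L u u = e ^ 2 * L (cR ν A) (cR ν A) + 2 * e * L (cR ν A) v + L v v := by
    rw [hu']
    simp only [map_add, map_smul, LinearMap.add_apply, LinearMap.smul_apply, smul_eq_mul]
    rw [hs v (cR ν A)]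
    ring
  rw [e1]
  have := mul_pos (pow_pos he 2) a3
  have := mul_nonneg (mul_nonneg zero_le_two he.le) a1
  linarith

variable {b : LatB X r}

theorem fr_of (h : Hyp X) (hr : RR T l₀ c) (hν : NumR ν) (hT : ∀ U V W, TR (cR ν U) (cR ν V) (cR ν W) = T U V W)
    (hH : HilbR ν TR l c) (hb : ∀ D, cl D = pt b (rv (ci ν D))) (Γ : Subgroup (MAut X))
    (hloc : ∀ p ∈ closure (AmpR ν), p ≠ 0 →
      (∀ w ∈ closure (AmpR ν), w ≠ 0 → TR (p + w) (p + w) (p + w) = 0 → 0 < l w) → RatAt ν p) :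
    Fr (ampR b) (grpR Γ b) TR l := by
  have := fd_of_basis h.var b
  have hC : IsAmp (ampR b) := isAmp_ampR h.var h.amp b
  have hCA : ampR b = AmpR ν := pt_amp h.var hb
  refine ⟨hC, Pool.Agent.H83.DC.pres_ampR Γ b, hH.s12, hH.s23, ?_, ?_, ?_, ?_, ?_, ?_⟩
  · intro u hu v hv w hw
    rw [hCA, cl_eq h.var hν] at hu hv hw
    exact tr_nn h hr hν hT hu hv hw
  · intro u hu w hw hw0
    rw [hCA] at hu hw hC
    have hw' := hw
    rw [cl_eq h.var hν] at hw'
    have key := pos_uu h hC hu (L := TR w) (fun x y => hH.s23 _ _ _) (fun x hx y hy => by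
      rw [cl_eq h.var hν] at hx hy
      exact tr_nn h hr hν hT hw' hx hy) fun A hA => nef_pos h hr hν hT hA hw' hw0
    rw [hH.s23, hH.s12]
    exact key
  · intro u hu
    rw [hCA] at hu
    obtain ⟨m, c', D, h1, h2, rfl⟩ := hu
    rw [map_sum]
    refine Finset.sum_pos (fun i _ => ?_) Finset.univ_nonempty
    rw [map_smul]
    exact mul_pos (h1 i) (hH.pos _ (h2 i))
  · rintro A ⟨g, -, hg⟩ u v w
    exact t_inv h.var hν hH h.amp hb hg u v w
  · rintro A ⟨g, -, hg⟩ u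
    exact l_inv h.var hν hH h.amp hb hg u
  · intro p hp hp0 hw
    rw [hCA] at hp hw ⊢
    exact hloc p hp hp0 hw

theorem effd_of (h : Hyp X) (hr : RR T l₀ c) (hν : NumR ν) (hT : ∀ U V W, TR (cR ν U) (cR ν V) (cR ν W) = T U V W)
    (hH : HilbR ν TR l c) (hb : ∀ D, cl D = pt b (rv (ci ν D))) (Γ : Subgroup (MAut X)) :
    EffD (ampR b) (grpR Γ b) TR (effE ν) := by
  have := fd_of_basis h.var b
  have hC : IsAmp (ampR b) := isAmp_ampR h.var h.amp b
  have hCA : ampR b = AmpR ν := pt_amp h.var hb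
  refine ⟨?_, ?_, ?_⟩
  · rintro A ⟨g, -, hg⟩ d ⟨D, hD, rfl⟩
    refine ⟨g.pull D, effective_pull g D hD, ?_⟩
    apply toR_inj
    have h1 := act_cr h.var hb hg D
    have h2 : toR ((A : Matrix (Fin r) (Fin r) ℤ).mulVec (ci ν D)) = act A (toR (ci ν D)) := (act_toR A (ci ν D)).symm
    rw [h2]
    exact h1.symm
  · intro a b' c'
    obtain ⟨U, hU⟩ := ci_surj hν a
    obtain ⟨V, hV⟩ := ci_surj hν b'
    obtain ⟨W, hW⟩ := ci_surj hν c'
    obtain ⟨z, hz⟩ := hH.int U V W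
    refine ⟨z, ?_⟩
    rw [← hU, ← hV, ← hW]
    exact hz
  · rintro a ha d ⟨E, hE, rfl⟩ hd
    rw [hCA] at ha hC
    have hE0 : cR ν E ≠ 0 := fun h0 => hd (toR_inj (by rw [toR_zero]; exact h0))
    have key := pos_uu h hC ha (L := TR (cR ν E)) (fun x y => hH.s23 _ _ _) (fun x hx y hy => by
      have h1 := nn_e h hr hν hT hE hx hy
      rw [hH.s12, hH.s23]
      have h2 : TR x (cR ν E) y = TR x y (cR ν E) := hH.s23 _ _ _
      rw [hH.s23, h2]
      exact h1) fun A hA => by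
        have h1 := pos_e h hr hν hT hA hE hE0
        rw [hH.s12, hH.s23]
        exact h1
    rw [hH.s23, hH.s12]
    exact key

end Pool.Agent.H20.P3G
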